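import Pool.Agent.Helper37.SN.Stmts

set_option autoImplicit false

/-! Few points are close to an end of an interval with many light points. -/

namespace Pool.Agent.Helper37.SN

open MeasureTheory Finset
open scoped ENNReal Classical

theorem edg_count (n B κ m : ℕ) (a b : Fin m → ℤ) :
    κ * ((univ : Finset (Fin m)).filter (fun z =>
      κ ≤ ((LL a b n B).filter (fun t => a z ≤ t ∧ t ≤ b z)).card)).card ≤ B * (n + 1) := by
  have h1 : κ * ((univ : Finset (Fin m)).filter (fun z =>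
      κ ≤ ((LL a b n B).filter (fun t => a z ≤ t ∧ t ≤ b z)).card)).card ≤
      ∑ z ∈ (univ : Finset (Fin m)).filter (fun z =>
        κ ≤ ((LL a b n B).filter (fun t => a z ≤ t ∧ t ≤ b z)).card),
        ((LL a b n B).filter (fun t => a z ≤ t ∧ t ≤ b z)).card := by
    rw [mul_comm, ← smul_eq_mul]
    exact Finset.card_nsmul_le_sum _ _ _ (fun z hz => (Finset.mem_filter.1 hz).2)
  have h2 : ∑ z ∈ (univ : Finset (Fin m)).filter (fun z =>
        κ ≤ ((LL a b n B).filter (fun t => a z ≤ t ∧ t ≤ b z)).card),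
        ((LL a b n B).filter (fun t => a z ≤ t ∧ t ≤ b z)).card ≤
      ∑ z : Fin m, ((LL a b n B).filter (fun t => a z ≤ t ∧ t ≤ b z)).card :=
    Finset.sum_le_sum_of_subset (Finset.filter_subset _ _)
  have h3 : ∑ z : Fin m, ((LL a b n B).filter (fun t => a z ≤ t ∧ t ≤ b z)).card =
      ∑ t ∈ LL a b n B, (NN a b 0 t).card := by
    simp only [NN, Finset.card_filter, add_zero, sub_zero]
    exact Finset.sum_comm
  have h4 : ∑ t ∈ LL a b n B, (NN a b 0 t).card ≤ (LL a b n B).card * B := by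
    rw [← smul_eq_mul]
    exact Finset.sum_le_card_nsmul _ _ _ (fun t ht => (Finset.mem_filter.1 ht).2)
  have h5 : (LL a b n B).card ≤ n + 1 := by
    refine (Finset.card_filter_le _ _).trans ?_
    rw [Int.card_Icc]
    omega
  calc _ ≤ (LL a b n B).card * B := h1.trans (h2.trans (h3.le.trans h4))
    _ ≤ (n + 1) * B := Nat.mul_le_mul_right _ h5
    _ = B * (n + 1) := mul_comm _ _

theorem edg_ball (c : ℤ) (W : ℕ) :
    (Finset.Icc (c - ((W : ℤ) + 1)) (c + ((W : ℤ) + 1))).card = 2 * W + 3 := by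
  rw [Int.card_Icc]
  omega

theorem st_EDG : ST_EDG := by
  intro n B ρ κ W m a b
  let H : Finset (Fin m) := (univ : Finset (Fin m)).filter (fun z =>
      κ ≤ ((LL a b n B).filter (fun t => a z ≤ t ∧ t ≤ b z)).card)
  have h1 : Edg a b n B ρ κ W ⊆ H.biUnion (fun z =>
      Finset.Icc ((a z + ((ρ : ℤ) - 1)) - ((W : ℤ) + 1)) ((a z + ((ρ : ℤ) - 1)) + ((W : ℤ) + 1)) ∪
      Finset.Icc ((b z - ((ρ : ℤ) - 1)) - ((W : ℤ) + 1))
        ((b z - ((ρ : ℤ) - 1)) + ((W : ℤ) + 1))) := by
    intro s hs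
    obtain ⟨-, z, hz, hs2⟩ := Finset.mem_filter.1 hs
    rw [Finset.mem_biUnion]
    refine ⟨z, Finset.mem_filter.2 ⟨Finset.mem_univ _, hz⟩, ?_⟩
    rw [Finset.mem_union, Finset.mem_Icc, Finset.mem_Icc]
    rcases hs2 with h | h
    · left
      rw [abs_le] at h
      constructor <;> linarith [h.1, h.2]
    · right
      rw [abs_le] at h
      constructor <;> linarith [h.1, h.2]
  have h2 : (Edg a b n B ρ κ W).card ≤ H.card * (2 * (2 * W + 3)) := by
    refine (Finset.card_le_card h1).trans (Finset.card_biUnion_le.trans ?_)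
    rw [← smul_eq_mul]
    refine Finset.sum_le_card_nsmul _ _ _ (fun z _ => ?_)
    refine (Finset.card_union_le _ _).trans ?_
    rw [edg_ball, edg_ball]
    omega
  calc κ * (Edg a b n B ρ κ W).card ≤ κ * (H.card * (2 * (2 * W + 3))) :=
        Nat.mul_le_mul_left _ h2
    _ = 2 * (2 * W + 3) * (κ * H.card) := by ring
    _ ≤ 2 * (2 * W + 3) * (B * (n + 1)) := Nat.mul_le_mul_left _ (edg_count n B κ m a b)

end Pool.Agent.Helper37.SN
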