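import Pool.Agent.Helper37.SN.Stmts

set_option autoImplicit false

/-! Fooling functions for every number of nodes. -/

namespace Pool.Agent.Helper37.SN

open MeasureTheory Finset
open scoped ENNReal Classical

theorem fool_K (c α M : ℝ) (hc : 0 < c) (hα : 0 < α) (hM : 0 ≤ M) :
    ∃ K : ℕ, 2 ≤ K ∧ M ≤ c * ((K : ℝ) / 2) ^ α := by
  obtain ⟨k, hk⟩ := exists_nat_ge (2 * (M / c + 1) ^ (1 / α))
  refine ⟨max 2 k, le_max_left _ _, ?_⟩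
  have h0 : 0 ≤ M / c := div_nonneg hM hc.le
  have h1 : (M / c + 1) ^ (1 / α) ≤ ((max 2 k : ℕ) : ℝ) / 2 := by
    have h2 : (k : ℝ) ≤ ((max 2 k : ℕ) : ℝ) := by exact_mod_cast le_max_right 2 k
    linarith
  have h2 : M / c + 1 ≤ (((max 2 k : ℕ) : ℝ) / 2) ^ α := by
    have h3 := Real.rpow_le_rpow (Real.rpow_nonneg (by linarith) _) h1 hα.le
    rwa [← Real.rpow_mul (by linarith), one_div_mul_cancel hα.ne', Real.rpow_one] at h3
  have h3 : M / c ≤ (((max 2 k : ℕ) : ℝ) / 2) ^ α := by linarith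
  rwa [div_le_iff₀ hc, mul_comm] at h3

theorem st_FOOL (hTWO : ST_TWO) (hANA : ST_ANA) : ST_FOOL := by
  intro r p q hp1 hp2 hq hr e A
  set α : ℝ := r - 1 / p + 1 / q with hαdef
  have hα : 0 < α := by
    have : 0 < 1 / q := by positivity
    rw [hαdef]
    linarith
  obtain ⟨c, hc, hA⟩ := hANA r p q hp1 hp2 hq hr e
  have hM : 0 ≤ max A 0 := le_max_right _ _
  obtain ⟨K, hK2, hK⟩ := fool_K c α (max A 0) hc hα hM
  obtain ⟨B, hB⟩ := hTWO K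
  obtain ⟨ρ₀, j, w, hA2⟩ := hA B
  obtain ⟨n₀, hn₀⟩ := hB ρ₀ j w
  refine ⟨K * 2 ^ n₀ + 1, ?_⟩
  intro m hm X
  have hex : ∃ n : ℕ, m ≤ K * 2 ^ n := by
    refine ⟨m, ?_⟩
    have h1 : m < 2 ^ m := Nat.lt_two_pow_self
    calc m ≤ 2 ^ m := h1.le
      _ ≤ K * 2 ^ m := Nat.le_mul_of_pos_left _ (by omega)
  let n := Nat.find hex
  have hn1 : m ≤ K * 2 ^ n := Nat.find_spec hex
  have hn2 : n₀ < n := by
    by_contra h
    have h1 : K * 2 ^ n ≤ K * 2 ^ n₀ :=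
      Nat.mul_le_mul_left _ (Nat.pow_le_pow_right (by norm_num) (not_lt.1 h))
    omega
  obtain ⟨n', hn'⟩ : ∃ n', n = n' + 1 := ⟨n - 1, by omega⟩
  have hn3 : K * 2 ^ n' < m := by
    have h1 := Nat.find_min hex (show n' < Nat.find hex from by
      show n' < n
      omega)
    exact not_le.1 h1
  obtain ⟨ρ, hρ, y, s₀, hDat⟩ := hn₀ n hn2.le m (fun i => pr (X i)) hn1
  obtain ⟨f, hf, hf0, hfq⟩ := hA2 n ρ m X y s₀ hρ hDat
  refine ⟨f, hf, hf0, le_trans (ENNReal.ofReal_le_ofReal ?_) hfq⟩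
  have hKpos : (0 : ℝ) < (K : ℝ) / 2 := by
    have : (2 : ℝ) ≤ K := by exact_mod_cast hK2
    linarith
  have h2n : (0 : ℝ) < 2 ^ n := by positivity
  have hm1 : (K : ℝ) / 2 * 2 ^ n ≤ m := by
    have h1 : ((K * 2 ^ n' : ℕ) : ℝ) ≤ m := by exact_mod_cast hn3.le
    have h2 : (K : ℝ) / 2 * 2 ^ n = ((K * 2 ^ n' : ℕ) : ℝ) := by
      rw [hn', pow_succ]
      push_cast
      ring
    rw [h2]
    exact h1
  have hm0 : (0 : ℝ) < m := lt_of_lt_of_le (mul_pos hKpos h2n) hm1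
  have h3 : (m : ℝ) ^ (-α) ≤ ((K : ℝ) / 2 * 2 ^ n) ^ (-α) :=
    Real.rpow_le_rpow_of_nonpos (mul_pos hKpos h2n) hm1 (by linarith)
  have h4 : ((K : ℝ) / 2 * 2 ^ n) ^ (-α) = ((K : ℝ) / 2) ^ (-α) * (2 : ℝ) ^ (-((n : ℝ) * α)) := by
    rw [Real.mul_rpow hKpos.le h2n.le, ← Real.rpow_natCast, ← Real.rpow_mul (by norm_num),
      mul_neg]
  have h5 : max A 0 * ((K : ℝ) / 2) ^ (-α) ≤ c := by
    rw [Real.rpow_neg hKpos.le, ← div_eq_mul_inv, div_le_iff₀ (Real.rpow_pos_of_pos hKpos α)]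
    exact hK
  have h6 : (0 : ℝ) ≤ (2 : ℝ) ^ (-((n : ℝ) * α)) := Real.rpow_nonneg (by norm_num) _
  calc A * (m : ℝ) ^ (-α) ≤ max A 0 * (m : ℝ) ^ (-α) :=
        mul_le_mul_of_nonneg_right (le_max_left _ _) (Real.rpow_nonneg hm0.le _)
    _ ≤ max A 0 * (((K : ℝ) / 2) ^ (-α) * (2 : ℝ) ^ (-((n : ℝ) * α))) := by
        rw [← h4]
        exact mul_le_mul_of_nonneg_left h3 hM
    _ = (max A 0 * ((K : ℝ) / 2) ^ (-α)) * (2 : ℝ) ^ (-((n : ℝ) * α)) := by ring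
    _ ≤ c * (2 : ℝ) ^ (-((n : ℝ) * α)) := mul_le_mul_of_nonneg_right h5 h6

end Pool.Agent.Helper37.SN
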