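import Pool.Agent.Helper37.SN.Stmts

set_option autoImplicit false

/-! Selection of a box. -/

namespace Pool.Agent.Helper37.SN

open MeasureTheory Finset
open scoped ENNReal Classical

/-- grid points of shape `s` -/
noncomputable def sel_pt (n s : ℕ) (t : ℕ × ℕ) : P2 :=
  ((((t.1 : ℝ) / 2 ^ s : ℝ) : UnitAddCircle), (((t.2 : ℝ) / 2 ^ (n - s) : ℝ) : UnitAddCircle))

/-- indices of the grid points of shape `s` -/
def sel_G (n s : ℕ) : Finset (ℕ × ℕ) := Finset.range (2 ^ s) ×ˢ Finset.range (2 ^ (n - s))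

theorem sel_G_card (n s : ℕ) (hs : s ≤ n) : (sel_G n s).card = 2 ^ n := by
  rw [sel_G, Finset.card_product, Finset.card_range, Finset.card_range, ← pow_add,
    Nat.add_sub_cancel' hs]

theorem sel_pow (ρ : ℤ) (c : ℕ) (hc : (2 : ℝ) ^ (-ρ) = c) (s : ℕ) :
    (2 : ℝ) ^ (-((s : ℤ) + ρ)) = (c : ℝ) / 2 ^ s := by
  rw [neg_add, zpow_add₀ (by norm_num : (2 : ℝ) ≠ 0), hc, zpow_neg, zpow_natCast, mul_comm,
    div_eq_mul_inv]

theorem sel_Bx (ρ : ℤ) (c : ℕ) (hc : (2 : ℝ) ^ (-ρ) = c) (n s : ℕ) (hs : s ≤ n) (x z : P2) :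
    Bx n ρ s x z ↔ ‖z.1 - x.1‖ ≤ (c : ℝ) / 2 ^ s ∧ ‖z.2 - x.2‖ ≤ (c : ℝ) / 2 ^ (n - s) := by
  unfold Bx
  have h1 : (n : ℤ) - s = ((n - s : ℕ) : ℤ) := by
    rw [Nat.cast_sub hs]
  rw [h1, sel_pow ρ c hc s, sel_pow ρ c hc (n - s)]

theorem sel_coe (R : Finset ℕ) : ((do
    let a ← R
    pure (a : ℝ)) : Finset ℝ) = Finset.image (Nat.cast : ℕ → ℝ) R := by
  ext x
  simp [Finset.bind_def, Finset.sup_eq_biUnion, eq_comm]

theorem sel_grd (hGRD : ST_GRD) (s c : ℕ) (z : UnitAddCircle) :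
    ((Finset.range (2 ^ s)).filter
      (fun i : ℕ => ‖z - (((i : ℝ) / 2 ^ s : ℝ) : UnitAddCircle)‖ ≤ (c : ℝ) / 2 ^ s)).card ≤
      2 * c + 1 := by
  have h1 := hGRD s c z
  rw [sel_coe, Finset.filter_image, Finset.card_image_of_injective _ Nat.cast_injective] at h1
  exact h1

theorem sel_count (hGRD : ST_GRD) (ρ : ℤ) (c : ℕ) (hc : (2 : ℝ) ^ (-ρ) = c) (n s : ℕ)
    (hs : s ≤ n) (z : P2) :
    ((sel_G n s).filter (fun t => Bx n ρ s (sel_pt n s t) z)).card ≤ (2 * c + 1) * (2 * c + 1) := by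
  have h1 : ((sel_G n s).filter (fun t => Bx n ρ s (sel_pt n s t) z)) ⊆
      ((Finset.range (2 ^ s)).filter
        (fun i : ℕ => ‖z.1 - (((i : ℝ) / 2 ^ s : ℝ) : UnitAddCircle)‖ ≤ (c : ℝ) / 2 ^ s)) ×ˢ
      ((Finset.range (2 ^ (n - s))).filter
        (fun i : ℕ => ‖z.2 - (((i : ℝ) / 2 ^ (n - s) : ℝ) : UnitAddCircle)‖ ≤
          (c : ℝ) / 2 ^ (n - s))) := by
    intro t ht
    rw [Finset.mem_filter, sel_Bx ρ c hc n s hs, sel_G, Finset.mem_product] at ht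
    rw [Finset.mem_product, Finset.mem_filter, Finset.mem_filter]
    exact ⟨⟨ht.1.1, ht.2.1⟩, ⟨ht.1.2, ht.2.2⟩⟩
  refine (Finset.card_le_card h1).trans ?_
  rw [Finset.card_product]
  exact Nat.mul_le_mul (sel_grd hGRD s c z.1) (sel_grd hGRD (n - s) c z.2)

/-- double counting -/
theorem sel_sum (hGRD : ST_GRD) (ρ : ℤ) (c : ℕ) (hc : (2 : ℝ) ^ (-ρ) = c) (n s : ℕ)
    (hs : s ≤ n) {m : ℕ} (X : Fin m → P2) :
    ∑ t ∈ sel_G n s, (near X n ρ (sel_pt n s t) s).card ≤ m * ((2 * c + 1) * (2 * c + 1)) := by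
  have h1 : ∑ t ∈ sel_G n s, (near X n ρ (sel_pt n s t) s).card =
      ∑ z : Fin m, ((sel_G n s).filter (fun t => Bx n ρ s (sel_pt n s t) (X z))).card := by
    simp only [near, Finset.card_filter]
    exact Finset.sum_comm
  rw [h1]
  refine (Finset.sum_le_card_nsmul _ _ ((2 * c + 1) * (2 * c + 1))
    (fun z _ => sel_count hGRD ρ c hc n s hs (X z))).trans ?_
  rw [Finset.card_univ, Fintype.card_fin, smul_eq_mul]

theorem sel_near_sub {m : ℕ} (X : Fin m → P2) (n s : ℕ) (hs : s ≤ n) (y : P2) :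
    near X n (-1) y s ⊆ near X n (-2) y s := by
  intro z hz
  simp only [near, Finset.mem_filter, Finset.mem_univ, true_and] at hz ⊢
  rw [sel_Bx (-1) 2 (by norm_num) n s hs] at hz
  rw [sel_Bx (-2) 4 (by norm_num) n s hs]
  have h1 : (0 : ℝ) < 2 ^ s := by positivity
  have h2 : (0 : ℝ) < 2 ^ (n - s) := by positivity
  refine ⟨hz.1.trans ?_, hz.2.trans ?_⟩
  · exact div_le_div_of_nonneg_right (by norm_num) h1.le
  · exact div_le_div_of_nonneg_right (by norm_num) h2.le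

theorem sel_tri (a b c : UnitAddCircle) (N : ℕ) (h1 : ‖a - b‖ ≤ ((1 : ℕ) : ℝ) / 2 ^ N)
    (h2 : ‖b - c‖ ≤ ((2 : ℕ) : ℝ) / 2 ^ N) : ‖a - c‖ ≤ ((4 : ℕ) : ℝ) / 2 ^ N := by
  have h3 : a - c = (a - b) + (b - c) := by abel
  have h4 : (0 : ℝ) < 2 ^ N := by positivity
  rw [h3]
  refine (norm_add_le _ _).trans ((add_le_add h1 h2).trans ?_)
  rw [← add_div]
  exact div_le_div_of_nonneg_right (by norm_num) h4.le

theorem sel_near_near {m : ℕ} (X : Fin m → P2) (n s : ℕ) (hs : s ≤ n) (y : P2) (z : Fin m)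
    (hz : z ∈ near X n (-1) y s) : near X n 0 (X z) s ⊆ near X n (-2) y s := by
  intro w hw
  simp only [near, Finset.mem_filter, Finset.mem_univ, true_and] at hz hw ⊢
  rw [sel_Bx (-1) 2 (by norm_num) n s hs] at hz
  rw [sel_Bx 0 1 (by norm_num) n s hs] at hw
  rw [sel_Bx (-2) 4 (by norm_num) n s hs]
  exact ⟨sel_tri _ _ _ _ hw.1 hz.1, sel_tri _ _ _ _ hw.2 hz.2⟩

/-- one shape -/
theorem sel_one (hGRD : ST_GRD) (n s B : ℕ) (hs : s ≤ n) {m : ℕ} (X : Fin m → P2)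
    (Bad : Fin m → ℕ → Prop)
    (hcon : ∀ y : P2, (near X n (-1) y s).card ≤ B →
      ∃ i ∈ near X n (-1) y s, ¬ ((near X n 0 (X i) s).card ≤ B ∧ ¬ Bad i s)) :
    B * 2 ^ n ≤ 81 * m + B * (25 * ((univ : Finset (Fin m)).filter
      (fun i => (near X n 0 (X i) s).card ≤ B ∧ Bad i s)).card) := by
  let H : Finset (ℕ × ℕ) := (sel_G n s).filter
    (fun t => B < (near X n (-2) (sel_pt n s t) s).card)
  let H' : Finset (ℕ × ℕ) := (sel_G n s).filter
    (fun t => ¬ B < (near X n (-2) (sel_pt n s t) s).card)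
  let S : Finset (Fin m) := (univ : Finset (Fin m)).filter
      (fun i => (near X n 0 (X i) s).card ≤ B ∧ Bad i s)
  have h1 : H.card + H'.card = 2 ^ n := by
    rw [← sel_G_card n s hs]
    exact Finset.card_filter_add_card_filter_not _
  have h2 : B * H.card ≤ 81 * m := by
    have h3 : B * H.card ≤ ∑ t ∈ H, (near X n (-2) (sel_pt n s t) s).card := by
      rw [mul_comm, ← smul_eq_mul]
      refine Finset.card_nsmul_le_sum _ _ _ (fun t ht => ?_)
      exact (Finset.mem_filter.1 ht).2.le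
    have h4 : ∑ t ∈ H, (near X n (-2) (sel_pt n s t) s).card ≤
        ∑ t ∈ sel_G n s, (near X n (-2) (sel_pt n s t) s).card :=
      Finset.sum_le_sum_of_subset (Finset.filter_subset _ _)
    have h5 := sel_sum hGRD (-2) 4 (by norm_num) n s hs X
    have h6 : m * ((2 * 4 + 1) * (2 * 4 + 1)) = 81 * m := by ring
    rw [h6] at h5
    exact h3.trans (h4.trans h5)
  have h3 : H'.card ≤ 25 * S.card := by
    have h4 : H' ⊆ S.biUnion (fun z => (sel_G n s).filter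
        (fun t => Bx n (-1) s (sel_pt n s t) (X z))) := by
      intro t ht
      obtain ⟨htG, htB⟩ := Finset.mem_filter.1 ht
      have h5 : (near X n (-2) (sel_pt n s t) s).card ≤ B := not_lt.1 htB
      obtain ⟨i, hi, hbad⟩ := hcon (sel_pt n s t)
        ((Finset.card_le_card (sel_near_sub X n s hs _)).trans h5)
      have h6 : (near X n 0 (X i) s).card ≤ B :=
        (Finset.card_le_card (sel_near_near X n s hs _ i hi)).trans h5
      have h7 : Bad i s := by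
        by_contra h
        exact hbad ⟨h6, h⟩
      rw [Finset.mem_biUnion]
      refine ⟨i, Finset.mem_filter.2 ⟨Finset.mem_univ _, h6, h7⟩, Finset.mem_filter.2 ⟨htG, ?_⟩⟩
      exact (Finset.mem_filter.1 hi).2
    refine (Finset.card_le_card h4).trans (Finset.card_biUnion_le.trans ?_)
    refine (Finset.sum_le_card_nsmul _ _ 25 (fun z _ => ?_)).trans ?_
    · exact (sel_count hGRD (-1) 2 (by norm_num) n s hs (X z)).trans (by norm_num)
    · rw [smul_eq_mul, mul_comm]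
  calc B * 2 ^ n = B * H.card + B * H'.card := by rw [← h1, mul_add]
    _ ≤ 81 * m + B * (25 * S.card) := add_le_add h2 (Nat.mul_le_mul_left _ h3)

theorem st_SEL (hGRD : ST_GRD) : ST_SEL := by
  intro K
  refine ⟨324 * (K + 1), 1 / (400 * ((K : ℝ) + 1)), 100, by positivity, ?_⟩
  intro n hn m X Bad hm hsum
  by_contra hcon
  push Not at hcon
  set B : ℕ := 324 * (K + 1) with hB
  let A : ℕ → ℕ := fun s => ((univ : Finset (Fin m)).filter
      (fun i => (near X n 0 (X i) s).card ≤ B ∧ Bad i s)).card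
  have h1 : ∀ s ∈ Finset.Icc 3 (n - 3), B * 2 ^ n ≤ 81 * m + B * (25 * A s) := by
    intro s hs
    obtain ⟨hs3, hsn⟩ := Finset.mem_Icc.1 hs
    refine sel_one hGRD n s B (by omega) X Bad ?_
    intro y hy
    obtain ⟨i, hi, hi2⟩ := hcon y s hs3 (by omega) hy
    exact ⟨i, hi, fun h => h.2 (hi2 h.1)⟩
  have h2 : (n - 5) * (B * 2 ^ n) ≤ (n - 5) * (81 * m) +
      B * (25 * ∑ s ∈ Finset.Icc 3 (n - 3), A s) := by
    have h3 := Finset.sum_le_sum h1
    rw [Finset.sum_const, Finset.sum_add_distrib, Finset.sum_const, Nat.card_Icc, smul_eq_mul,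
      smul_eq_mul, ← Finset.mul_sum, ← Finset.mul_sum,
      show n - 3 + 1 - 3 = n - 5 by omega] at h3
    exact h3
  have h3 : ((∑ s ∈ Finset.Icc 3 (n - 3), A s : ℕ) : ℝ) ≤
      1 / (400 * ((K : ℝ) + 1)) * (n + 1) * m := by
    refine le_trans ?_ hsum
    have h4 : ∑ s ∈ Finset.Icc 3 (n - 3), A s ≤ ∑ s ∈ Finset.range (n + 1), A s := by
      refine Finset.sum_le_sum_of_subset (fun s hs => ?_)
      have := Finset.mem_Icc.1 hs
      exact Finset.mem_range.2 (by omega)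
    have h5 : ∑ s ∈ Finset.range (n + 1), A s = ∑ i, ((Finset.range (n + 1)).filter
        (fun s => (near X n 0 (X i) s).card ≤ B ∧ Bad i s)).card := by
      simp only [A, Finset.card_filter]
      exact Finset.sum_comm
    rw [h5] at h4
    exact_mod_cast h4
  -- the final computation
  have hK : (0 : ℝ) ≤ K := Nat.cast_nonneg _
  have hnR : (100 : ℝ) ≤ n := by exact_mod_cast hn
  have hmR : (m : ℝ) ≤ K * 2 ^ n := by exact_mod_cast hm
  have hm0 : (0 : ℝ) ≤ m := Nat.cast_nonneg _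
  have hP : (0 : ℝ) < 2 ^ n := by positivity
  have h4 : ((n : ℝ) - 5) * ((324 * (K + 1)) * 2 ^ n) ≤ (n - 5) * (81 * m) +
      (324 * (K + 1)) * (25 * ((∑ s ∈ Finset.Icc 3 (n - 3), A s : ℕ) : ℝ)) := by
    have h5 : ((n - 5 : ℕ) : ℝ) = (n : ℝ) - 5 := by
      rw [Nat.cast_sub (by omega)]
      norm_num
    have h6 : (((n - 5) * (B * 2 ^ n) : ℕ) : ℝ) ≤ (((n - 5) * (81 * m) +
      B * (25 * ∑ s ∈ Finset.Icc 3 (n - 3), A s) : ℕ) : ℝ) := by exact_mod_cast h2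
    rw [hB] at h6
    simp only [Nat.cast_mul, Nat.cast_add, Nat.cast_pow, Nat.cast_ofNat, Nat.cast_one, h5] at h6
    exact h6
  have h5 : (324 * ((K : ℝ) + 1)) * (25 * ((∑ s ∈ Finset.Icc 3 (n - 3), A s : ℕ) : ℝ)) ≤
      81 / 4 * ((n + 1) * m) := by
    have h6 : (324 * ((K : ℝ) + 1)) * (25 * (1 / (400 * ((K : ℝ) + 1)) * (n + 1) * m)) =
        81 / 4 * ((n + 1) * m) := by
      have : (K : ℝ) + 1 ≠ 0 := by positivity
      field_simp
      ring
    rw [← h6]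
    have : (0 : ℝ) ≤ 324 * ((K : ℝ) + 1) := by positivity
    exact mul_le_mul_of_nonneg_left (mul_le_mul_of_nonneg_left h3 (by norm_num)) this
  have h6 : ((n : ℝ) - 5) * (81 * m) ≤ (n - 5) * (81 * (K * 2 ^ n)) :=
    mul_le_mul_of_nonneg_left (mul_le_mul_of_nonneg_left hmR (by norm_num)) (by linarith)
  have h7 : 81 / 4 * (((n : ℝ) + 1) * m) ≤ 81 / 4 * ((n + 1) * (K * 2 ^ n)) :=
    mul_le_mul_of_nonneg_left (mul_le_mul_of_nonneg_left hmR (by linarith)) (by norm_num)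
  have h8 : ((n : ℝ) - 5) * ((324 * (K + 1)) * 2 ^ n) ≤
      (n - 5) * (81 * (K * 2 ^ n)) + 81 / 4 * ((n + 1) * (K * 2 ^ n)) := by linarith
  have h9 : (((n : ℝ) - 5) * (324 * (K + 1)) -
      ((n - 5) * (81 * K) + 81 / 4 * ((n + 1) * K))) * 2 ^ n ≤ 0 := by
    have h11 : (((n : ℝ) - 5) * (324 * (K + 1)) -
      ((n - 5) * (81 * K) + 81 / 4 * ((n + 1) * K))) * 2 ^ n =
      ((n : ℝ) - 5) * ((324 * (K + 1)) * 2 ^ n) - ((n - 5) * (81 * (K * 2 ^ n)) +
        81 / 4 * ((n + 1) * (K * 2 ^ n))) := by ring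
    rw [h11]
    exact sub_nonpos.2 h8
  have h10 : (0 : ℝ) < ((n : ℝ) - 5) * (324 * (K + 1)) -
      ((n - 5) * (81 * K) + 81 / 4 * ((n + 1) * K)) := by
    have h11 : (0 : ℝ) ≤ ((n : ℝ) - 100) * K := mul_nonneg (by linarith) hK
    have h12 : ((n : ℝ) - 5) * (324 * (K + 1)) -
      ((n - 5) * (81 * K) + 81 / 4 * ((n + 1) * K)) = 891 / 4 * (((n : ℝ) - 100) * K) +
        324 * (n - 5) + 84159 / 4 * K := by ring
    rw [h12]
    have h13 : (0 : ℝ) ≤ 891 / 4 * (((n : ℝ) - 100) * K) := mul_nonneg (by norm_num) h11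
    have h14 : (0 : ℝ) ≤ 84159 / 4 * (K : ℝ) := mul_nonneg (by norm_num) hK
    have h15 : (0 : ℝ) < 324 * ((n : ℝ) - 5) := mul_pos (by norm_num) (by linarith)
    linarith
  have := mul_pos h10 hP
  linarith

end Pool.Agent.Helper37.SN
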